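import Pool.Agent.R441.C107

/-!
The conjectured evaluation of `S_p(ω)` and `S_p(ω̄)` through the least positive solution of
`3x² + 4(p/3) = py²` is false: it fails for `p = 107`, where the least solution is `(12, 2)`.
-/

set_option autoImplicit false

namespace Pool.Agent.Results.MP_06877e_nt.LeastSolutionFails

open Complex Real

/-- `S_p(x) = ∏_{k=1}^{(p-1)/2} (x - e^{2πik²/p})` -/
noncomputable def S (p : ℕ) (x : ℂ) : ℂ :=
  ∏ k ∈ Finset.Icc 1 ((p - 1) / 2), (x - Complex.exp (2 * π * I * (k : ℂ) ^ 2 / p))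

/-- `ω = e^{2πi/3}` -/
noncomputable def ω : ℂ := Complex.exp (2 * π * I / 3)

/-- `N_p`: the number of `1 ≤ k < p/3` with `(k/p) = 1` -/
def N (p : ℕ) : ℕ := ((Finset.range p).filter (fun k : ℕ => 1 ≤ k ∧ 3 * k < p ∧ jacobiSym k p = 1)).card

/-- `(x, y)` is the least solution in positive integers of `3x² + 4(p/3) = py²` -/
def IsLeastSol (p x y : ℕ) : Prop :=
  (0 < x ∧ 0 < y ∧ 3 * (x : ℤ) ^ 2 + 4 * jacobiSym p 3 = p * (y : ℤ) ^ 2) ∧
  ∀ x' y' : ℕ, 0 < x' → 0 < y' → 3 * (x' : ℤ) ^ 2 + 4 * jacobiSym p 3 = p * (y' : ℤ) ^ 2 →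
    x ≤ x' ∧ y ≤ y'

/-- `c_p = i` if `p ≡ 7 mod 12` and `c_p = (-1)^{N_p} i ω` otherwise -/
noncomputable def c (p : ℕ) : ℂ := if p % 12 = 7 then I else (-1) ^ N p * I * ω

/-- `d_p = i` if `p ≡ 7 mod 12` and `d_p = (-1)^{N_p} i ω̄` otherwise -/
noncomputable def d (p : ℕ) : ℂ := if p % 12 = 7 then I else (-1) ^ N p * I * (starRingEnd ℂ) ω

theorem omega_cube : ω ^ 3 = 1 := by
  unfold ω
  rw [← Complex.exp_nat_mul, Complex.exp_eq_one_iff]
  exact ⟨1, by push_cast; ring⟩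

theorem prim_omega : IsPrimitiveRoot ω 3 := by
  have := Complex.isPrimitiveRoot_exp 3 (by norm_num)
  unfold ω
  convert this using 2
  norm_num

theorem omega_sum : ω ^ 2 + ω + 1 = 0 := by
  have h1 : ω ≠ 1 := prim_omega.ne_one (by norm_num)
  have h2 : (ω - 1) * (ω ^ 2 + ω + 1) = 0 := by
    have := omega_cube
    linear_combination this
  rcases mul_eq_zero.1 h2 with h | h
  · exact absurd (sub_eq_zero.1 h) h1
  · exact h

theorem omega_val : ω = -1 / 2 + (√3 / 2 : ℝ) * I := by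
  unfold ω
  have e : (2 * π * I / 3 : ℂ) = ((2 * π / 3 : ℝ) : ℂ) * I := by push_cast; ring
  have c1 : Real.cos (2 * π / 3) = -1 / 2 := by
    rw [show (2 * π / 3 : ℝ) = π - π / 3 by ring, Real.cos_pi_sub, Real.cos_pi_div_three]
    norm_num
  have c2 : Real.sin (2 * π / 3) = √3 / 2 := by
    rw [show (2 * π / 3 : ℝ) = π - π / 3 by ring, Real.sin_pi_sub, Real.sin_pi_div_three]
  rw [e, Complex.exp_mul_I, ← Complex.ofReal_cos, ← Complex.ofReal_sin, c1, c2]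
  push_cast
  ring

theorem conj_omega : (starRingEnd ℂ) ω = ω ^ 2 := by
  have h1 : (starRingEnd ℂ) ω = -1 / 2 - (√3 / 2 : ℝ) * I := by
    rw [omega_val, map_add, map_mul, Complex.conj_ofReal, Complex.conj_I, map_div₀, map_neg, map_one,
      map_ofNat]
    ring
  have h2 := omega_sum
  rw [h1]
  have h3 := omega_val
  linear_combination -h2 + h3

theorem sqrt_three : (√3 : ℂ) * I = ω - ω ^ 2 := by
  have h2 := omega_sum
  have h3 := omega_val
  push_cast at h3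
  linear_combination h2 - 2 * h3

/-- `e^{2πi/321}` -/
noncomputable def z : ℂ := Complex.exp (2 * π * I / 321)

theorem prim_z : IsPrimitiveRoot z 321 := by
  have := Complex.isPrimitiveRoot_exp 321 (by norm_num)
  unfold z
  convert this using 2
  norm_num

theorem z_pow : z ^ 107 = ω := by
  unfold z ω
  rw [← Complex.exp_nat_mul]
  congr 1
  push_cast
  ring

theorem z_sq (k : ℕ) : z ^ (3 * k ^ 2) = Complex.exp (2 * π * I * (k : ℂ) ^ 2 / (107 : ℕ)) := by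
  unfold z
  rw [← Complex.exp_nat_mul]
  congr 1
  push_cast
  ring

theorem S_omega : S 107 ω = ∏ k ∈ Finset.Icc 1 53, (z ^ 107 - z ^ (3 * k ^ 2)) := by
  unfold S
  refine Finset.prod_congr rfl fun k _ => ?_
  rw [z_pow, z_sq]

theorem S_omega_sq : S 107 (ω ^ 2) =
    ∏ k ∈ Finset.Icc 1 53, ((z ^ 215) ^ 107 - (z ^ 215) ^ (3 * k ^ 2)) := by
  unfold S
  refine Finset.prod_congr rfl fun k _ => ?_
  have e1 : (z ^ 215) ^ 107 = ω ^ 2 := by
    rw [← pow_mul, mul_comm, pow_mul, z_pow]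
    have : ω ^ 215 = (ω ^ 3) ^ 71 * ω ^ 2 := by ring
    rw [this, omega_cube, one_pow, one_mul]
  have e2 : (z ^ 215) ^ (3 * k ^ 2) = z ^ (3 * k ^ 2) := by
    have : (z ^ 215) ^ (3 * k ^ 2) = (z ^ 321) ^ (2 * k ^ 2) * z ^ (3 * k ^ 2) := by
      rw [← pow_mul, ← pow_mul, ← pow_add]
      congr 1
      ring
    rw [this, prim_z.pow_eq_one, one_pow, one_mul]
  rw [e1, e2, z_sq]

theorem prim_z' : IsPrimitiveRoot (z ^ 215) 321 :=
  prim_z.pow_of_coprime 215 (by decide)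

theorem jac107 : jacobiSym ((107 : ℕ) : ℤ) 3 = -1 := by
  norm_num

theorem leastSol : IsLeastSol 107 12 2 := by
  unfold IsLeastSol
  rw [jac107]
  refine ⟨by norm_num, ?_⟩
  intro x y hx hy h
  have hy2 : 2 ≤ y := by
    by_contra hlt
    have h1 : y = 1 := by omega
    subst h1
    have h2 : x < 7 := by
      by_contra h3
      have : 7 ≤ x := by omega
      have : (7 : ℤ) ≤ x := by exact_mod_cast this
      push_cast at h
      nlinarith
    interval_cases x <;> norm_num at h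
  refine ⟨?_, hy2⟩
  by_contra h3
  have h4 : (x : ℤ) ≤ 11 := by
    have : x ≤ 11 := by omega
    exact_mod_cast this
  have h5 : (2 : ℤ) ≤ y := by exact_mod_cast hy2
  have h6 : (0 : ℤ) < x := by exact_mod_cast hx
  push_cast at h
  nlinarith

theorem sqrt107 : ((√(107 : ℕ) : ℝ) : ℂ) ^ 2 = 107 := by
  rw [← Complex.ofReal_pow, Real.sq_sqrt (by positivity)]
  norm_num

theorem fail_one {u : ℤ} (hu : u = 1 ∨ u = -1) :
    S 107 ω ≠ u * I * ω * (((12 : ℕ) * √3 - (2 : ℕ) * √(107 : ℕ) : ℝ) / 2) := by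
  intro h
  refine Pool.Agent.R441.main107 prim_z hu ?_
  rw [← S_omega, h, z_pow]
  have e1 : z ^ 214 = ω ^ 2 := by
    rw [show (214 : ℕ) = 107 * 2 by norm_num, pow_mul, z_pow]
  rw [e1]
  have h1 := sqrt_three
  have h2 := sqrt107
  have h3 := omega_cube
  have h4 : (u : ℂ) ^ 2 = 1 := by rcases hu with rfl | rfl <;> norm_num
  have h5 : (u : ℂ) * I * ω * (((12 : ℕ) * √3 - (2 : ℕ) * √(107 : ℕ) : ℝ) / 2) * ω ^ 2
      - 6 * u * (ω - ω ^ 2) = -(u * I * (√(107 : ℕ) : ℝ)) := by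
    push_cast
    linear_combination (u * I * (6 * √3 - √107) : ℂ) * h3 + (6 * u : ℂ) * h1
  rw [h5]
  have : (-((u : ℂ) * I * (√(107 : ℕ) : ℝ))) ^ 2 = u ^ 2 * I ^ 2 * ((√(107 : ℕ) : ℝ) : ℂ) ^ 2 := by
    ring
  rw [this, h2, h4, Complex.I_sq]
  norm_num

theorem fail_two {u : ℤ} (hu : u = 1 ∨ u = -1) :
    S 107 (ω ^ 2) ≠ -(u * I * ω ^ 2 * (((12 : ℕ) * √3 + (2 : ℕ) * √(107 : ℕ) : ℝ) / 2)) := by
  intro h
  refine Pool.Agent.R441.main107 prim_z' hu ?_
  have e0 : (z ^ 215) ^ 107 = ω ^ 2 := by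
    rw [← pow_mul, mul_comm, pow_mul, z_pow]
    have : ω ^ 215 = (ω ^ 3) ^ 71 * ω ^ 2 := by ring
    rw [this, omega_cube, one_pow, one_mul]
  have h3 := omega_cube
  have e1 : (z ^ 215) ^ 214 = ω := by
    rw [show (214 : ℕ) = 107 * 2 by norm_num, pow_mul, e0]
    linear_combination ω * h3
  rw [← S_omega_sq, h, e0, e1]
  have h1 := sqrt_three
  have h2 := sqrt107
  have h4 : (u : ℂ) ^ 2 = 1 := by rcases hu with rfl | rfl <;> norm_num
  have h5 : -((u : ℂ) * I * ω ^ 2 * (((12 : ℕ) * √3 + (2 : ℕ) * √(107 : ℕ) : ℝ) / 2)) * ω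
      - 6 * u * (ω ^ 2 - ω) = -(u * I * (√(107 : ℕ) : ℝ)) := by
    push_cast
    linear_combination (-(u * I * (6 * √3 + √107)) : ℂ) * h3 - (6 * u : ℂ) * h1
  rw [h5]
  have : (-((u : ℂ) * I * (√(107 : ℕ) : ℝ))) ^ 2 = u ^ 2 * I ^ 2 * ((√(107 : ℕ) : ℝ) : ℂ) ^ 2 := by
    ring
  rw [this, h2, h4, Complex.I_sq]
  norm_num

/-- Whatever values `h p` are used for the class numbers `h(-p)`, there is a prime `p > 3` with
`p ≡ 3 (mod 4)`, namely `p = 107` with least solution `(12, 2)`, for which both conjectured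
identities fail. -/
theorem result (h : ℕ → ℕ) : ∃ p x y : ℕ, (p = 107 ∧ x = 12 ∧ y = 2) ∧
    p.Prime ∧ 3 < p ∧ p % 4 = 3 ∧ IsLeastSol p x y ∧
    S p ω ≠ (-1) ^ ((h p + 1) / 2) * jacobiSym p 3 * c p * ((x * √3 - y * √p : ℝ) / 2) ∧
    S p ((starRingEnd ℂ) ω) ≠
      -((-1) ^ ((h p + 1) / 2) * jacobiSym p 3 * d p * ((x * √3 + y * √p : ℝ) / 2)) := by
  refine ⟨107, 12, 2, ⟨rfl, rfl, rfl⟩, by norm_num, by norm_num, by norm_num, leastSol, ?_⟩
  have hc : c 107 = (-1) ^ N 107 * I * ω := by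
    unfold c
    rw [if_neg (by norm_num)]
  have hd : d 107 = (-1) ^ N 107 * I * ω ^ 2 := by
    unfold d
    rw [if_neg (by norm_num), conj_omega]
  obtain ⟨u, hu, hu'⟩ : ∃ u : ℤ, (u = 1 ∨ u = -1) ∧
      ((-1 : ℂ) ^ ((h 107 + 1) / 2) * (jacobiSym ((107 : ℕ) : ℤ) 3 : ℤ) * (-1) ^ N 107) = u := by
    rw [jac107]
    refine ⟨(-1) ^ ((h 107 + 1) / 2) * (-1) * (-1) ^ N 107, ?_, by push_cast; ring⟩
    rcases neg_one_pow_eq_or ℤ ((h 107 + 1) / 2) with h1 | h1 <;>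
      rcases neg_one_pow_eq_or ℤ (N 107) with h2 | h2 <;> simp [h1, h2]
  rw [conj_omega, hc, hd]
  constructor
  · intro h1
    apply fail_one hu
    rw [h1, ← hu']
    ring
  · intro h1
    apply fail_two hu
    rw [h1, ← hu']
    ring

end Pool.Agent.Results.MP_06877e_nt.LeastSolutionFails
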